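import Pool.Agent.H73.LPC.Stmts

/-!
# Board LPC, row RKC: the rank of a composition
-/

set_option autoImplicit false

open Set Filter Topology MeasureTheory Metric

namespace Pool.LPC

open Pool.PHS

theorem RKC_thm : RKCStmt := by
  intro n D U g φ G hD hU hg hφ hmaps hG hrk p hp i l
  have hgp : DifferentiableAt ℂ g (φ p) :=
    (hg (φ p) (hmaps hp)).differentiableAt (hD.mem_nhds (hmaps hp))
  have hφp : DifferentiableAt ℂ φ p := (hφ p hp).differentiableAt (hU.mem_nhds hp)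
  have heq : G =ᶠ[𝓝 p] g ∘ φ := by
    filter_upwards [hU.mem_nhds hp] with x hx
    exact hG x hx
  have hd : fderiv ℂ G p = (fderiv ℂ g (φ p)).comp (fderiv ℂ φ p) := by
    rw [heq.fderiv_eq]
    exact fderiv_comp p hgp hφp
  obtain ⟨v, hv⟩ := finrank_le_one_iff.1 (hrk (φ p) (hmaps hp))
  obtain ⟨a, ha⟩ := hv ⟨fderiv ℂ g (φ p) (fderiv ℂ φ p (1, 0)), ⟨_, rfl⟩⟩
  obtain ⟨b, hb⟩ := hv ⟨fderiv ℂ g (φ p) (fderiv ℂ φ p (0, 1)), ⟨_, rfl⟩⟩
  have ha' : pz G p = a • (v : Cn n) := by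
    unfold pz
    rw [hd]
    exact (congrArg Subtype.val ha).symm
  have hb' : pw G p = b • (v : Cn n) := by
    unfold pw
    rw [hd]
    exact (congrArg Subtype.val hb).symm
  rw [ha', hb']
  simp only [Pi.smul_apply, smul_eq_mul]
  ring

end Pool.LPC
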